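import Pool.Agent.H8.SYb.A
import Pool.Agent.H34.SY.WB

/-!
# Row SYb/C: the region where the family (b) is `t - Re ζ`

Let `K0 = s1 + T + 1 + B²` (`B = P.hd.B`).  `eT z = fT (rhoN z)`, `eZe z = fZe (rhoN z)`, `eH0 z = fH0 (rhoN z)`, `eS z = fS (rhoN z)` are `rfl`.
In the else-branches of `Par.Fb`, `Par.FbN` there is nothing to prove.  So let `-1 < w1`, `s < 0`, `h0 < 1`, `p = rhoN z ∈ FPS La`
(`rhoN_mem`), `x = xpt t u`, `R = Rr h0 (fZ p)`, `nsq3 x = t² + |u|²`.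
* `Cfin m n x R = x.1` if `s1 ≤ nsq3 x + R` (`m = 1`; `n = 0` because `s1 > 2 s0`); `R ≥ 0`.
* (i) if `K0 ≤ nsq3 x`: `c x = x.1` (`c_far`, `B² ≤ nsq3 x`) and `Cfin = x.1`, so the value is
  `(1-τ)(t + psiR (t - t)) + τ t - Re ζ = t - Re ζ`.
* (ii) if `K0 ≤ R`: `psiR R = 0` (`1/4 + T ≤ R`) and `Cfin = x.1`: same value.
* w1: `|u|² = |w|²/(1+w1)² = (1-w1)/(1+w1) ≥ K0` (`|w|² = 1 - w1²`), so (i).  * t: `nsq3 x ≥ t² ≥ K0`, (i).
* h0: `R ≥ ((1+h0)/(1-h0))/2 ≥ K0`, (ii).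
* s: `|ζ|²+|z|² = La² - s² ≥ 7 La²/16`; with `β² = (1+h0)/(1-h0)`: `|ζ|² = β² |z|²` (from `(1-h0) ζ = conj h z` and `|h|² = 1 - h0²`), so
  `|ζ|²+|z|² = |z|²(1+β²) ≤ 2R(1+2R)` since `β², |z|² ≤ 2R`.  If `R < K0`: `2R(1+2R) < 2K0(1+2K0) ≤ 4 (1+K0)² < 7·100 (1+K0)²/16 ≤ 7 La²/16`.
-/

open Set Topology
open scoped ContDiff ComplexConjugate

namespace Pool.Agent.H8.SYb

open Pool.Agent.H34.SY

theorem C_Rr_nonneg {h0 : ℝ} (h1 : h0 < 1) (h2 : 0 ≤ 1 + h0) (y : ℂ) : 0 ≤ Rr h0 y := by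
  unfold Rr
  have := Complex.normSq_nonneg y
  have h3 : 0 ≤ (1 + h0) / (1 - h0) := div_nonneg h2 (by linarith)
  linarith

theorem C_final (P : Par) {m n : ℝ → ℝ} {s0 s1 : ℝ} (hp : Prof m n s0 s1) (hT : 0 < P.T)
    (K0 : ℝ) (hK : K0 = s1 + P.T + 1 + P.hd.B ^ 2) {x : V3} {R : ℝ} (hR : 0 ≤ R)
    (h : K0 ≤ nsq3 x ∨ K0 ≤ R) (τ q : ℝ) :
    (1 - τ) * (x.1 + P.psiR R * (P.hd.c x - x.1)) + τ * Cfin m n x R - q = x.1 - q := by
  have h0 := hp.s0_large
  have h1 := hp.s1_gt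
  have hs1 : 0 < s1 := by norm_num at h0; linarith
  have hB : 0 ≤ P.hd.B ^ 2 := sq_nonneg _
  have hx : 0 ≤ nsq3 x := by unfold nsq3; positivity
  have hsum : s1 ≤ nsq3 x + R := by
    rcases h with h | h <;> nlinarith
  have hC : Cfin m n x R = x.1 := by
    unfold Cfin
    rw [hp.m_far _ hsum, hp.n_far _ (by linarith)]
    ring
  have hψ : P.psiR R * (P.hd.c x - x.1) = 0 := by
    rcases h with h | h
    · rw [P.hd.c_far x (by linarith), sub_self, mul_zero]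
    · rw [psiR_zero P hT (by linarith), zero_mul]
  rw [hC, hψ]
  ring

theorem Fb_lin (P : Par) {m n : ℝ → ℝ} {s0 s1 : ℝ} (hp : Prof m n s0 s1) (hT : 0 < P.T)
    (K0 : ℝ) (hK : K0 = s1 + P.T + 1 + P.hd.B ^ 2) (hLa : 10 * (1 + K0) ≤ P.La) {z : EA}
    (hz : z ∈ WS P.La)
    (h : K0 * (1 + eW1 z) ≤ 1 - eW1 z ∨ 2 * K0 * (1 - eH0 z) ≤ 1 + eH0 z ∨
      -(3 / 4 * P.La) < eS z ∨ K0 ≤ eT z ^ 2) (τ : ℝ) :
    P.Fb m n τ z = eT z - (eZe z).re := by
  have hs0 := hp.s0_large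
  have hs1 := hp.s1_gt
  have hs1p : 0 < s1 := by norm_num at hs0; linarith
  have hBB : 0 ≤ P.hd.B ^ 2 := sq_nonneg _
  have hK0 : 0 < K0 := by rw [hK]; linarith
  unfold Par.Fb
  split_ifs with hw
  swap
  · rfl
  have hmem := rhoN_mem hz hw
  obtain ⟨hq, -⟩ := hmem
  have hw1 := hz.1
  have hwp : 0 < 1 + eW1 z := by linarith
  have hu : Complex.normSq (fU (rhoN z)) = (1 - eW1 z) / (1 + eW1 z) := by
    change Complex.normSq ((((1 + eW1 z)⁻¹ : ℝ) : ℂ) * eW z) = _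
    rw [Complex.normSq_mul, Complex.normSq_ofReal]
    have : Complex.normSq (eW z) = (1 - eW1 z) * (1 + eW1 z) := by linarith
    rw [this]
    field_simp
  have eT' : fT (rhoN z) = eT z := rfl
  have eZ' : fZe (rhoN z) = eZe z := rfl
  have eH' : fH0 (rhoN z) = eH0 z := rfl
  have eS' : fS (rhoN z) = eS z := rfl
  generalize hpq : rhoN z = p at *
  unfold Par.FbN
  split_ifs with hs
  swap
  · rw [eT', eZ']
  obtain ⟨hs, hh⟩ := hs
  obtain ⟨q1, q2, q3, q4⟩ := hq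
  rw [eH'] at hh
  rw [eS'] at hs
  rw [eH'] at q1 q2 q3
  rw [eZ'] at q2 q3 q4
  rw [eS'] at q4
  have hh0 : 0 ≤ 1 + eH0 z := by
    have := Complex.normSq_nonneg (fH p)
    nlinarith
  have hR := C_Rr_nonneg hh hh0 (fZ p)
  have hx1 : (xpt (fT p) (fU p)).1 = fT p := rfl
  have hns : nsq3 (xpt (fT p) (fU p)) = fT p ^ 2 + Complex.normSq (fU p) := by
    unfold nsq3 xpt
    rw [Complex.normSq_apply]
    ring
  have key : K0 ≤ nsq3 (xpt (fT p) (fU p)) ∨ K0 ≤ Rr (fH0 p) (fZ p) := by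
    rw [hns, eT', eH']
    rcases h with h | h | h | h
    · left
      have : K0 ≤ (1 - eW1 z) / (1 + eW1 z) := by
        rw [le_div_iff₀ hwp]; exact h
      rw [hu]
      nlinarith [sq_nonneg (eT z)]
    · right
      unfold Rr
      have : 2 * K0 ≤ (1 + eH0 z) / (1 - eH0 z) := by
        rw [le_div_iff₀ (by linarith)]; exact h
      have := Complex.normSq_nonneg (fZ p)
      linarith
    · right
      by_contra hcon
      push Not at hcon
      unfold Rr at hcon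
      obtain ⟨b, hb⟩ : ∃ b : ℝ, b = (1 + eH0 z) / (1 - eH0 z) := ⟨_, rfl⟩
      rw [← hb] at hcon
      have hb0 : 0 ≤ b := by rw [hb]; exact div_nonneg hh0 (by linarith)
      have hy0 := Complex.normSq_nonneg (fZ p)
      have hd : 0 < 1 - eH0 z := by linarith
      have hbb : b * (1 - eH0 z) = 1 + eH0 z := by
        rw [hb]; field_simp
      -- normSq of ζ
      have hn := congrArg Complex.normSq q3
      rw [Complex.normSq_mul, Complex.normSq_mul, Complex.normSq_ofReal, Complex.normSq_conj] at hn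
      have hζ : Complex.normSq (eZe z) = b * Complex.normSq (fZ p) := by
        have h1 : Complex.normSq (fH p) = (1 - eH0 z) * (1 + eH0 z) := by linarith
        rw [h1, ← hbb] at hn
        have h2 : (1 - eH0 z) * (1 - eH0 z) ≠ 0 := by positivity
        have h3 : (1 - eH0 z) * (1 - eH0 z) * Complex.normSq (eZe z) =
            (1 - eH0 z) * (1 - eH0 z) * (b * Complex.normSq (fZ p)) := by
          linear_combination hn
        exact mul_left_cancel₀ h2 h3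
      rw [hζ] at q4
      have hLap : 0 < P.La := by linarith
      have hsq : eS z ^ 2 ≤ (3 / 4 * P.La) ^ 2 := by
        have : |eS z| ≤ 3 / 4 * P.La := by
          rw [abs_le]; constructor <;> linarith
        calc eS z ^ 2 = |eS z| ^ 2 := (sq_abs _).symm
          _ ≤ _ := by
            apply pow_le_pow_left₀ (abs_nonneg _) this
      have hLa2 : (10 * (1 + K0)) ^ 2 ≤ P.La ^ 2 := pow_le_pow_left₀ (by linarith) hLa 2
      have hy1 : Complex.normSq (fZ p) ≤ 2 * K0 := by linarith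
      have hb1 : b ≤ 2 * K0 := by linarith
      have hmul : b * Complex.normSq (fZ p) ≤ 2 * K0 * (2 * K0) :=
        mul_le_mul hb1 hy1 hy0 (by linarith)
      nlinarith
    · left
      have := Complex.normSq_nonneg (fU p)
      linarith
  have hfin := C_final P hp hT K0 hK hR (by rw [← eH']; exact key) τ (fZe p).re
  rw [hx1] at hfin
  rw [eH'] 
  rw [hfin, eT', eZ']

end Pool.Agent.H8.SYb
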