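import Pool.Agent.H8.SYb.E

/-!
# Row SYb/F: the central points `b = y = 0`

`R = 0`, `ρ = nsq3 x < s0`.  `psiR 0 = 1`, so `CT P m n τ x 0 = (1-τ) c(x) + τ Cfin m n x 0`, `Cfin m n x 0 = c0 x` near `x` (`Cfin_core`,
definition of `c0`).
* dc0_spec: `c0` is a cubic polynomial: `HasDerivAt (fun s => c0 (x + s • e)) (dc0 x e) 0`.
* c0_reg: if `c0 x = 0` then `dc0 x e ≠ 0` for some `e`: otherwise `ρ - 1 + 2 x1² = 0`, `x1 x2 + x3 = 0`, `x1 x3 + x2 = 0`; so `x2 (1 - x1²) = 0`;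
  `x1² = 1` gives `ρ = -1`, impossible; `x2 = 0`, `x3 = 0`, `ρ = x1²`, `3 x1² = 1`, `c0 x = x1 (x1² - 1) ≠ 0`: contradiction.
* central: three cases.
  (α) `τ = 1`: near `s = 0`, `CT 1 (x + s e) 0 = c0 (x + s e)` (`ρ < s0` is an open condition); zero, so `c0 x = 0`; use c0_reg.
  (β) `τ < 1`, `L² ≤ ρ`: direction `e = (1,0,0)`: derivative `(1-τ) ∂₁c(x) + τ (ρ - 1 + 2 x1²)`, `∂₁c(x) > 0` (`c_mono`), `ρ ≥ L² ≥ 1`.
  (γ) `τ < 1`, `ρ < L²`: near `x` (`nsq3 < L²` is open) `c = K c0/(1+nsq3)` (`c_core`) and `CT τ · 0 = φ c0` with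
  `φ = (1-τ) K/(1+nsq3) + τ > 0`; zero, so `c0 x = 0`, and the derivative in direction `e` is `φ(x) dc0 x e`; use c0_reg.
-/

open Set Topology
open scoped ContDiff ComplexConjugate

namespace Pool.Agent.H8.SYb

open Pool.Agent.H34.SY

theorem dc0_spec (x e : V3) : HasDerivAt (fun s : ℝ => c0 (x + s • e)) (dc0 x e) 0 := by
  have h1 : HasDerivAt (fun s : ℝ => x.1 + s * e.1) e.1 0 := by
    simpa using ((hasDerivAt_id (0 : ℝ)).mul_const e.1).const_add x.1
  have h2 : HasDerivAt (fun s : ℝ => x.2.1 + s * e.2.1) e.2.1 0 := by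
    simpa using ((hasDerivAt_id (0 : ℝ)).mul_const e.2.1).const_add x.2.1
  have h3 : HasDerivAt (fun s : ℝ => x.2.2 + s * e.2.2) e.2.2 0 := by
    simpa using ((hasDerivAt_id (0 : ℝ)).mul_const e.2.2).const_add x.2.2
  have h4 := (h1.mul ((((h1.pow 2).add (h2.pow 2)).add (h3.pow 2)).sub_const 1)).add
    ((h2.const_mul 2).mul h3)
  have h5 : (fun s : ℝ => c0 (x + s • e)) = fun s : ℝ => (x.1 + s * e.1) *
      ((x.1 + s * e.1) ^ 2 + (x.2.1 + s * e.2.1) ^ 2 + (x.2.2 + s * e.2.2) ^ 2 - 1) +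
      2 * (x.2.1 + s * e.2.1) * (x.2.2 + s * e.2.2) := rfl
  rw [h5]
  refine h4.congr_deriv ?_
  unfold dc0 nsq3
  simp
  ring

theorem c0_reg {x : V3} (h : c0 x = 0) : ∃ e : V3, dc0 x e ≠ 0 := by
  by_contra hc
  push Not at hc
  have e1 := hc (1, 0, 0)
  have e2 := hc (0, 1, 0)
  have e3 := hc (0, 0, 1)
  unfold dc0 at e1 e2 e3
  unfold c0 at h
  unfold nsq3 at e1 e2 e3 h
  simp only [one_mul, zero_mul, add_zero, zero_add] at e1 e2 e3
  have a1 : x.2.1 * (1 - x.1 ^ 2) = 0 := by linear_combination e3 / 2 - x.1 * e2 / 2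
  rcases mul_eq_zero.1 a1 with a2 | a2
  · have a3 : x.2.2 = 0 := by rw [a2] at e2; linarith
    rw [a2, a3] at e1 h
    have a4 : x.1 * (x.1 ^ 2 - 1) = 0 := by linear_combination h
    rcases mul_eq_zero.1 a4 with a5 | a5
    · rw [a5] at e1
      norm_num at e1
    · nlinarith
  · nlinarith [sq_nonneg x.2.1, sq_nonneg x.2.2]

theorem F_n (x e : V3) : HasDerivAt (fun s : ℝ => nsq3 (x + s • e))
    (2 * x.1 * e.1 + 2 * x.2.1 * e.2.1 + 2 * x.2.2 * e.2.2) 0 := by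
  have h1 : HasDerivAt (fun s : ℝ => x.1 + s * e.1) e.1 0 := by
    simpa using ((hasDerivAt_id (0 : ℝ)).mul_const e.1).const_add x.1
  have h2 : HasDerivAt (fun s : ℝ => x.2.1 + s * e.2.1) e.2.1 0 := by
    simpa using ((hasDerivAt_id (0 : ℝ)).mul_const e.2.1).const_add x.2.1
  have h3 : HasDerivAt (fun s : ℝ => x.2.2 + s * e.2.2) e.2.2 0 := by
    simpa using ((hasDerivAt_id (0 : ℝ)).mul_const e.2.2).const_add x.2.2
  have h4 := ((h1.pow 2).add (h2.pow 2)).add (h3.pow 2)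
  have h5 : (fun s : ℝ => nsq3 (x + s • e)) = fun s : ℝ =>
      (x.1 + s * e.1) ^ 2 + (x.2.1 + s * e.2.1) ^ 2 + (x.2.2 + s * e.2.2) ^ 2 := rfl
  rw [h5]
  refine h4.congr_deriv ?_
  simp

theorem F_c (P : Par) (x e : V3) : HasDerivAt (fun s : ℝ => P.hd.c (x + s • e))
    (fderiv ℝ P.hd.c x e) 0 := by
  have h1 : HasDerivAt (fun s : ℝ => x + s • e) e 0 := by
    simpa using ((hasDerivAt_id (0 : ℝ)).smul_const e).const_add x
  have h2 : HasFDerivAt P.hd.c (fderiv ℝ P.hd.c x) (x + (0 : ℝ) • e) := by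
    rw [zero_smul, add_zero]
    exact (P.hd.c_smooth.differentiable (by simp) x).hasFDerivAt
  exact h2.comp_hasDerivAt (0 : ℝ) h1

theorem central (P : Par) {m n : ℝ → ℝ} {s0 s1 : ℝ} (hp : Prof m n s0 s1) (hT : 0 < P.T) {τ : ℝ}
    (h0 : 0 ≤ τ) (h1 : τ ≤ 1) {x : V3} (hs : nsq3 x < s0) (hz : CT P m n τ x 0 = 0) :
    ∃ (e : V3) (d : ℝ), d ≠ 0 ∧ HasDerivAt (fun s : ℝ => CT P m n τ (x + s • e) 0) d 0 := by
  have hpsi : P.psiR 0 = 1 := psiR_one P hT (by norm_num)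
  have hCT : ∀ y : V3, nsq3 y < s0 → CT P m n τ y 0 = (1 - τ) * P.hd.c y + τ * c0 y := by
    intro y hy
    unfold CT
    rw [hpsi, Cfin_core hp (by linarith : nsq3 y + 0 ≤ s0)]
    unfold c0
    ring
  have hder : ∀ e : V3, HasDerivAt (fun s : ℝ => CT P m n τ (x + s • e) 0)
      ((1 - τ) * fderiv ℝ P.hd.c x e + τ * dc0 x e) 0 := by
    intro e
    have h2 := ((F_c P x e).const_mul (1 - τ)).add ((dc0_spec x e).const_mul τ)
    refine h2.congr_of_eventuallyEq ?_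
    have h3 := (F_n x e).continuousAt.eventually (isOpen_Iio.mem_nhds (show nsq3 (x + (0 : ℝ) • e) ∈
      Set.Iio s0 by rw [zero_smul, add_zero]; exact hs))
    filter_upwards [h3] with s hs'
    exact hCT _ hs'
  rw [hCT x hs] at hz
  by_cases hτ : τ = 1
  · subst hτ
    rw [sub_self, zero_mul, zero_add, one_mul] at hz
    obtain ⟨e, he⟩ := c0_reg hz
    refine ⟨e, _, ?_, hder e⟩
    rw [sub_self, zero_mul, zero_add, one_mul]
    exact he
  · have hτ1 : 0 < 1 - τ := by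
      have := lt_of_le_of_ne h1 hτ
      linarith
    by_cases hL : P.hd.L ^ 2 ≤ nsq3 x
    · refine ⟨(1, 0, 0), _, ?_, hder _⟩
      have h2 := P.hd.c_mono x (Or.inl hL)
      have h3 : 0 ≤ dc0 x (1, 0, 0) := by
        unfold dc0
        have := P.hd.hL
        have h4 : (1 : ℝ) ≤ P.hd.L ^ 2 := by nlinarith
        simp only [one_mul, zero_mul, add_zero]
        nlinarith [sq_nonneg x.1]
      have h5 := mul_pos hτ1 h2
      have h6 := mul_nonneg h0 h3
      exact (by linarith : 0 < (1 - τ) * fderiv ℝ P.hd.c x (1, 0, 0) + τ * dc0 x (1, 0, 0)).ne'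
    · have hL' : nsq3 x < P.hd.L ^ 2 := not_le.1 hL
      have hn : 0 ≤ nsq3 x := by unfold nsq3; positivity
      have hK := P.hd.hK
      have hφ : 0 < (1 - τ) * (P.hd.K / (1 + nsq3 x)) + τ := by
        have : 0 < (1 - τ) * (P.hd.K / (1 + nsq3 x)) := by positivity
        linarith
      have hc0 : c0 x = 0 := by
        rw [P.hd.c_core x hL'.le] at hz
        have h2 : ((1 - τ) * (P.hd.K / (1 + nsq3 x)) + τ) * c0 x = 0 := by
          rw [← hz]
          ring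
        rcases mul_eq_zero.1 h2 with h3 | h3
        · exact absurd h3 hφ.ne'
        · exact h3
      obtain ⟨e, he⟩ := c0_reg hc0
      refine ⟨e, _, ?_, hder e⟩
      have hfd : fderiv ℝ P.hd.c x e = P.hd.K / (1 + nsq3 x) * dc0 x e := by
        have h2 := ((dc0_spec x e).const_mul P.hd.K).div ((F_n x e).const_add 1)
          (by rw [zero_smul, add_zero]; positivity)
        have h3 : HasDerivAt (fun s : ℝ => P.hd.c (x + s • e)) ((P.hd.K * dc0 x e *
            (1 + nsq3 (x + (0 : ℝ) • e)) - P.hd.K * c0 (x + (0 : ℝ) • e) *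
            (2 * x.1 * e.1 + 2 * x.2.1 * e.2.1 + 2 * x.2.2 * e.2.2)) /
            (1 + nsq3 (x + (0 : ℝ) • e)) ^ 2) 0 := by
          refine h2.congr_of_eventuallyEq ?_
          have h4 := (F_n x e).continuousAt.eventually (isOpen_Iio.mem_nhds
            (show nsq3 (x + (0 : ℝ) • e) ∈ Set.Iio (P.hd.L ^ 2) by rw [zero_smul, add_zero]; exact hL'))
          filter_upwards [h4] with s hs'
          exact P.hd.c_core _ (le_of_lt hs')
        have h4 := (F_c P x e).unique h3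
        rw [h4, zero_smul, add_zero, hc0]
        have h5 : 1 + nsq3 x ≠ 0 := by positivity
        field_simp
        ring
      rw [hfd]
      have h6 : (1 - τ) * (P.hd.K / (1 + nsq3 x) * dc0 x e) + τ * dc0 x e =
        ((1 - τ) * (P.hd.K / (1 + nsq3 x)) + τ) * dc0 x e := by ring
      rw [h6]
      exact mul_ne_zero hφ.ne' he

end Pool.Agent.H8.SYb
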