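import Pool.Agent.H8.SYb.D
import Pool.Agent.H8.SYb.F

/-!
# SYb/M: regularity of the family (b) in the chart
-/

open Set Topology
open scoped ContDiff ComplexConjugate

namespace Pool.Agent.H8.SYb

open Pool.Agent.H34.SY

theorem hasDeriv_mk (v : H7) (f : ℝ → H7) (a : ℝ) (u b y : ℂ)
    (hf : ∀ s, f s = (v.1 + s * a, v.2.1 + (s : ℂ) * u, v.2.2.1 + (s : ℂ) * b,
      v.2.2.2 + (s : ℂ) * y)) : HasDerivAt f (a, u, b, y) 0 := by
  have h1 : HasDerivAt (fun s : ℝ => v.1 + s * a) a 0 := by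
    simpa using ((hasDerivAt_id (0 : ℝ)).mul_const a).const_add v.1
  have h2 : ∀ w z : ℂ, HasDerivAt (fun s : ℝ => w + (s : ℂ) * z) z 0 := by
    intro w z
    have h := (((hasDerivAt_id (0 : ℝ)).ofReal_comp).mul_const z).const_add w
    simpa using h
  have h := h1.prodMk ((h2 v.2.1 u).prodMk ((h2 v.2.2.1 b).prodMk (h2 v.2.2.2 y)))
  have e : f = fun s : ℝ => (v.1 + s * a, v.2.1 + (s : ℂ) * u, v.2.2.1 + (s : ℂ) * b,
      v.2.2.2 + (s : ℂ) * y) := funext hf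
  rw [e]
  exact h

theorem GG_reg (P : Par) {m n : ℝ → ℝ} {s0 s1 : ℝ} (hp : Prof m n s0 s1) (hT : 0 < P.T) {C : ℝ}
    (hC : ∀ x, |deriv Real.smoothTransition x| ≤ C) (hCT : 4 * (C * P.hd.Sb) ≤ P.T)
    (hs0 : P.hd.L ^ 2 + P.T + 1 ≤ s0) {τ : ℝ} (hτ : τ ∈ Icc (0 : ℝ) 1) (v : H7)
    (hz : GG P m n τ v = 0) :
    ∃ (γ : ℝ → H7) (γ' : H7) (d : ℝ), γ 0 = v ∧ HasDerivAt γ γ' 0 ∧
      HasDerivAt (fun s => GG P m n τ (γ s)) d 0 ∧ d ≠ 0 := by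
  set x := xpt v.1 v.2.1 with hx
  set R := (Complex.normSq v.2.2.1 + Complex.normSq v.2.2.2) / 2 with hR
  have hRn : 0 ≤ R := by
    have := Complex.normSq_nonneg v.2.2.1
    have := Complex.normSq_nonneg v.2.2.2
    positivity
  -- it is enough to have a direction in the variables `x`
  have key : (∃ (e : V3) (d : ℝ), d ≠ 0 ∧
      HasDerivAt (fun s : ℝ => CT P m n τ (x + s • e) R) d 0) →
      ∃ (γ : ℝ → H7) (γ' : H7) (d : ℝ), γ 0 = v ∧ HasDerivAt γ γ' 0 ∧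
      HasDerivAt (fun s => GG P m n τ (γ s)) d 0 ∧ d ≠ 0 := by
    rintro ⟨e, d, hd, h⟩
    refine ⟨fun s => (v.1 + s * e.1, v.2.1 + (s : ℂ) * (⟨e.2.1, e.2.2⟩ : ℂ), v.2.2),
      (e.1, ⟨e.2.1, e.2.2⟩, 0, 0), d, by simp, ?_, xdir P m n τ v e d h, hd⟩
    apply hasDeriv_mk v
    intro s
    simp
  set A := deriv (fun r => CT P m n τ x r) R with hA
  by_cases hby : Complex.normSq ((A : ℂ) * conj v.2.2.1 - v.2.2.2)
        + Complex.normSq ((A : ℂ) * conj v.2.2.2 - v.2.2.1) = 0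
  swap
  · refine ⟨fun s => (v.1, v.2.1, v.2.2.1 + (s : ℂ) * conj ((A : ℂ) * conj v.2.2.1 - v.2.2.2),
      v.2.2.2 + (s : ℂ) * conj ((A : ℂ) * conj v.2.2.2 - v.2.2.1)), 
      (0, 0, conj ((A : ℂ) * conj v.2.2.1 - v.2.2.2), conj ((A : ℂ) * conj v.2.2.2 - v.2.2.1)),
      _, by simp, ?_, bydir P hp τ v A hA _ _ rfl rfl, hby⟩
    apply hasDeriv_mk v
    intro s
    simp
  apply key
  have pos : (P.hd.L ^ 2 ≤ nsq3 x ∨ 3 / 4 ≤ |x.1| ∨ P.psiR R = 0) →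
      (s0 ≤ nsq3 x + R ∨ 0 < nsq3 x + R - 1 + 2 * x.1 ^ 2) →
      ∃ (e : V3) (d : ℝ), d ≠ 0 ∧ HasDerivAt (fun s : ℝ => CT P m n τ (x + s • e) R) d 0 := by
    intro h1 h2
    obtain ⟨d, hd, h⟩ := dCT_pos P hp hτ.1 hτ.2 hRn h1 h2
    exact ⟨(1, 0, 0), d, hd.ne', h⟩
  have hL : 1 ≤ P.hd.L := P.hd.hL
  by_cases hs : s0 ≤ nsq3 x + R
  · apply pos _ (Or.inl hs)
    by_cases hL2 : P.hd.L ^ 2 ≤ nsq3 x
    · exact Or.inl hL2
    · right; right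
      apply psiR_zero P hT
      push Not at hL2
      linarith
  push Not at hs
  rcases dich A _ _ hby with h | h
  · have hR0 : R = 0 := by
      rw [hR, h.1, h.2]
      simp
    rw [hR0] at hs ⊢
    rw [add_zero] at hs
    have hz' : CT P m n τ x 0 = 0 := by
      have : GG P m n τ v = CT P m n τ x R - (v.2.2.1 * v.2.2.2).re := rfl
      rw [this, hR0, h.1] at hz
      simpa using hz
    obtain ⟨e, d, hd, h'⟩ := central P hp hT hτ.1 hτ.2 hs hz'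
    exact ⟨e, d, hd, h'⟩
  · have h34 := core_R P hp hT hC hCT hτ.1 hτ.2 hs h
    apply pos (Or.inr (Or.inl h34))
    right
    have h3 : (9 : ℝ) / 16 ≤ x.1 ^ 2 := by
      have h4 := abs_nonneg x.1
      have h5 : x.1 ^ 2 = |x.1| ^ 2 := (sq_abs x.1).symm
      rw [h5]
      nlinarith
    have h6 : x.1 ^ 2 ≤ nsq3 x := by
      unfold nsq3
      nlinarith [sq_nonneg x.2.1, sq_nonneg x.2.2]
    nlinarith

end Pool.Agent.H8.SYb
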