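import Pool.Agent.H8.SYb.B
import Pool.Agent.H8.SYb.C
import Pool.Agent.H8.SYb.M
import Pool.Agent.H34.SY.TA

/-!
# SYb/Z: the family (b) gives an ambient isotopy
-/

open Set Topology
open scoped ContDiff ComplexConjugate

namespace Pool.Agent.H8.SYb

open Pool.Agent.H34.SY

theorem isoFam_Fb (hd : Handle) : ∃ T0 : ℝ, ∀ T : ℝ, T0 ≤ T → ∀ (m n : ℝ → ℝ) (s0 s1 : ℝ),
    Prof m n s0 s1 → hd.L ^ 2 + T + 1 ≤ s0 → ∃ La0 : ℝ, ∀ La : ℝ, La0 ≤ La → ∀ rb : ℝ,
      ∀ P : Par, P = ⟨hd, T, La, rb⟩ → IsoFam P.La (P.Fb m n) := by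
  obtain ⟨C, hC0, hC⟩ := st_deriv_bound
  refine ⟨max 1 (4 * (C * hd.Sb)), fun T hT m n s0 s1 hp hs0 =>
    ⟨10 * (1 + (s1 + T + 1 + hd.B ^ 2)), fun La hLa rb P hP => ?_⟩⟩
  have hT1 : 1 ≤ T := le_trans (le_max_left _ _) hT
  have hT2 : 4 * (C * hd.Sb) ≤ T := le_trans (le_max_right _ _) hT
  obtain ⟨K0, hK0⟩ : ∃ K0, K0 = s1 + T + 1 + hd.B ^ 2 := ⟨_, rfl⟩
  rw [← hK0] at hLa
  have hs0' := hp.s0_large
  have hs1' := hp.s1_gt
  have hK1 : 1 ≤ K0 := by
    rw [hK0]
    have := sq_nonneg hd.B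
    norm_num at hs0'
    linarith
  have hLa0 : 0 < La := by linarith
  have hlin : ∀ z ∈ WS P.La, (K0 * (1 + eW1 z) ≤ 1 - eW1 z ∨ 2 * K0 * (1 - eH0 z) ≤ 1 + eH0 z ∨
      -(3 / 4 * P.La) < eS z ∨ K0 ≤ eT z ^ 2) → ∀ τ, P.Fb m n τ z = eT z - (eZe z).re := by
    intro z hz h τ
    subst hP
    exact Fb_lin _ hp (by linarith) K0 hK0 hLa hz h τ
  have hPLa : P.La = La := by rw [hP]
  have hPT : P.T = T := by rw [hP]
  have hPhd : P.hd = hd := by rw [hP]
  apply isoFam_of (P.Fb m n) _ K0 1 one_pos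
  · intro z hz h
    left
    intro τ _
    rw [hlin z hz _ τ, hlin z hz _ 0]
    all_goals
      rcases h with h | h
      · right; right; right
        have h1 : eT z ^ 2 = |eT z| ^ 2 := (sq_abs _).symm
        rw [h1]
        nlinarith
      · right; right; left
        rw [hPLa]
        linarith
  · intro z hz
    by_cases hreg : (K0 * (1 + eW1 z) < 1 - eW1 z ∨ 2 * K0 * (1 - eH0 z) < 1 + eH0 z ∨
        -(3 / 4 * P.La) < eS z)
    · -- the linear region
      have c1 : Continuous (fun z : EA => eW1 z) := by fun_prop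
      have c2 : Continuous (fun z : EA => eH0 z) := by fun_prop
      have c3 : Continuous (fun z : EA => eS z) := by fun_prop
      have hPL : 0 < P.La := by rw [hPLa]; exact hLa0
      refine regAt_lin hPL (P.Fb m n) hz
        {y | K0 * (1 + eW1 y) < 1 - eW1 y ∨ 2 * K0 * (1 - eH0 y) < 1 + eH0 y ∨
          -(3 / 4 * P.La) < eS y} ?_ hreg ?_
      · have o1 : IsOpen {y : EA | K0 * (1 + eW1 y) < 1 - eW1 y} :=
          isOpen_lt (continuous_const.mul (continuous_const.add c1)) (continuous_const.sub c1)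
        have o2 : IsOpen {y : EA | 2 * K0 * (1 - eH0 y) < 1 + eH0 y} :=
          isOpen_lt (continuous_const.mul (continuous_const.sub c2)) (continuous_const.add c2)
        have o3 : IsOpen {y : EA | -(3 / 4 * P.La) < eS y} := isOpen_lt continuous_const c3
        exact o1.union (o2.union o3)
      · rintro y ⟨hy, hy'⟩ τ
        apply hlin y hy _ τ
        rcases hy' with h | h | h
        · exact Or.inl h.le
        · exact Or.inr (Or.inl h.le)
        · exact Or.inr (Or.inr (Or.inl h))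
    · push Not at hreg
      obtain ⟨h1, h2, h3⟩ := hreg
      have hw : -1 < eW1 z := by
        by_contra hcon
        push Not at hcon
        nlinarith
      have hh : eH0 z < 1 := by
        by_contra hcon
        push Not at hcon
        nlinarith
      have hs : eS z < 0 := by
        rw [hPLa] at h3
        linarith
      have hPL : 0 < P.La := by rw [hPLa]; exact hLa0
      refine regAt_N finrank_H7 (chart_cB P.La hPL (-1) (Or.inr rfl)) (P.Fb m n) hw
        ⟨hh, by change 0 < (-1) * eS z; linarith⟩ (fun τ v => GG P m n τ v) ?_ ?_ ?_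
      · intro τ v hv
        exact Fb_chart P m n τ v hv
      · exact (contDiff_GG P hp).contDiffOn
      · intro τ hτ v _ h0
        exact GG_reg P hp (by rw [hPT]; linarith) hC (by rw [hPT, hPhd]; exact hT2)
          (by rw [hPT, hPhd]; exact hs0) hτ v h0

end Pool.Agent.H8.SYb
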