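import Pool.Agent.H8.SYb.Defs

/-!
# Row SYb/A: smoothness

`P.psiR s = cut (1/4) P.T s = 1 - smoothTransition ((s - 1/4)/P.T)`: smooth (`Real.smoothTransition.contDiff`), `0 ≤ psiR ≤ 1`,
`= 1` for `s ≤ 1/4` (`Real.smoothTransition.zero_of_nonpos`, `0 < P.T`), `= 0` for `1/4 + P.T ≤ s`
(`Real.smoothTransition.one_of_one_le`).  `P.hd.c` smooth (`c_smooth`), `m`, `n` smooth.  `nsq3` polynomial.
`Complex.normSq z = z.re * z.re + z.im * z.im`; `Complex.reCLM`, `Complex.imCLM` smooth; multiplication of `ℂ` is real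
smooth (`ContDiff.mul`).  `st_deriv_bound`: the derivative of `Real.smoothTransition` is continuous and vanishes outside
`Icc 0 1` (constant for `x < 0`, `x > 1`; at the end points by continuity or `isCompact_Icc.exists_bound_of_continuousOn` on
`Icc (-1) 2`).  `psiR_deriv`: chain rule, `|deriv P.psiR s| = |deriv st ((s-1/4)/T)| / T ≤ C/T`.
-/

open Set Topology
open scoped ContDiff ComplexConjugate

namespace Pool.Agent.H8.SYb

open Pool.Agent.H34.SY

theorem SYbA_normSq {E : Type} [NormedAddCommGroup E] [NormedSpace ℝ E] {f : E → ℂ}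
    (hf : ContDiff ℝ ∞ f) : ContDiff ℝ ∞ (fun x => Complex.normSq (f x)) := by
  have h1 : ContDiff ℝ ∞ (fun x => (f x).re) := Complex.reCLM.contDiff.comp hf
  have h2 : ContDiff ℝ ∞ (fun x => (f x).im) := Complex.imCLM.contDiff.comp hf
  have e : (fun x => Complex.normSq (f x)) =
      fun x => (f x).re * (f x).re + (f x).im * (f x).im := by
    funext x
    exact Complex.normSq_apply _
  rw [e]
  exact (h1.mul h1).add (h2.mul h2)

theorem contDiff_psiR (P : Par) : ContDiff ℝ ∞ P.psiR := by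
  have e : P.psiR = fun s => 1 - Real.smoothTransition ((s - 1 / 4) / P.T) := rfl
  rw [e]
  refine contDiff_const.sub ?_
  exact Real.smoothTransition.contDiff.comp ((contDiff_id.sub contDiff_const).div_const _)

theorem psiR_mem (P : Par) (s : ℝ) : 0 ≤ P.psiR s ∧ P.psiR s ≤ 1 := by
  have e : P.psiR s = 1 - Real.smoothTransition ((s - 1 / 4) / P.T) := rfl
  rw [e]
  have h1 := Real.smoothTransition.nonneg ((s - 1 / 4) / P.T)
  have h2 := Real.smoothTransition.le_one ((s - 1 / 4) / P.T)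
  constructor <;> linarith

theorem psiR_one (P : Par) (hT : 0 < P.T) {s : ℝ} (h : s ≤ 1 / 4) : P.psiR s = 1 := by
  have e : P.psiR s = 1 - Real.smoothTransition ((s - 1 / 4) / P.T) := rfl
  rw [e, Real.smoothTransition.zero_of_nonpos (div_nonpos_of_nonpos_of_nonneg (by linarith) hT.le),
    sub_zero]

theorem psiR_zero (P : Par) (hT : 0 < P.T) {s : ℝ} (h : 1 / 4 + P.T ≤ s) : P.psiR s = 0 := by
  have e : P.psiR s = 1 - Real.smoothTransition ((s - 1 / 4) / P.T) := rfl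
  rw [e, Real.smoothTransition.one_of_one_le ((le_div_iff₀ hT).2 (by linarith)), sub_self]

theorem st_deriv_bound : ∃ C : ℝ, 0 < C ∧ ∀ x, |deriv Real.smoothTransition x| ≤ C := by
  have hc : Continuous (deriv Real.smoothTransition) :=
    (Real.smoothTransition.contDiff (n := 1)).continuous_deriv (by norm_num)
  obtain ⟨C, hC⟩ := isCompact_Icc.exists_bound_of_continuousOn (s := Icc (-1 : ℝ) 2)
    hc.continuousOn
  refine ⟨max C 1, lt_of_lt_of_le one_pos (le_max_right _ _), fun x => ?_⟩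
  by_cases hx : x ∈ Icc (-1 : ℝ) 2
  · have h := hC x hx
    rw [Real.norm_eq_abs] at h
    exact h.trans (le_max_left _ _)
  · have h0 : deriv Real.smoothTransition x = 0 := by
      rw [mem_Icc, not_and_or, not_le, not_le] at hx
      rcases hx with hx | hx
      · have h1 : Real.smoothTransition =ᶠ[𝓝 x] fun _ => (0 : ℝ) := by
          filter_upwards [Iio_mem_nhds (show x < 0 by linarith)] with y hy
          exact Real.smoothTransition.zero_of_nonpos (le_of_lt hy)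
        rw [h1.deriv_eq, deriv_const]
      · have h1 : Real.smoothTransition =ᶠ[𝓝 x] fun _ => (1 : ℝ) := by
          filter_upwards [Ioi_mem_nhds (show 1 < x by linarith)] with y hy
          exact Real.smoothTransition.one_of_one_le (le_of_lt hy)
        rw [h1.deriv_eq, deriv_const]
    rw [h0, abs_zero]
    exact le_trans zero_le_one (le_max_right _ _)

theorem psiR_deriv (P : Par) (hT : 0 < P.T) {C : ℝ} (hC : ∀ x, |deriv Real.smoothTransition x| ≤ C)
    (s : ℝ) : |deriv P.psiR s| ≤ C / P.T := by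
  have e : P.psiR = fun s => 1 - Real.smoothTransition ((s - 1 / 4) / P.T) := rfl
  have h1 : HasDerivAt (fun s : ℝ => (s - 1 / 4) / P.T) (1 / P.T) s :=
    ((hasDerivAt_id s).sub_const (1 / 4)).div_const P.T
  have h2 : HasDerivAt Real.smoothTransition (deriv Real.smoothTransition ((s - 1 / 4) / P.T))
      ((s - 1 / 4) / P.T) :=
    ((Real.smoothTransition.contDiff (n := 1)).differentiable (by norm_num) _).hasDerivAt
  have h3 := (h2.comp s h1).const_sub 1
  have h4 : deriv P.psiR s = -(deriv Real.smoothTransition ((s - 1 / 4) / P.T) * (1 / P.T)) := by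
    rw [e]
    exact h3.deriv
  rw [h4, abs_neg, abs_mul, abs_of_pos (by positivity : 0 < 1 / P.T), mul_one_div]
  exact div_le_div_of_nonneg_right (hC _) hT.le

theorem contDiff_CT (P : Par) {m n : ℝ → ℝ} {s0 s1 : ℝ} (hp : Prof m n s0 s1) :
    ContDiff ℝ ∞ (fun p : ℝ × V3 × ℝ => CT P m n p.1 p.2.1 p.2.2) := by
  have hτ : ContDiff ℝ ∞ (fun p : ℝ × V3 × ℝ => p.1) := contDiff_fst
  have hx : ContDiff ℝ ∞ (fun p : ℝ × V3 × ℝ => p.2.1) := contDiff_fst.comp contDiff_snd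
  have hR : ContDiff ℝ ∞ (fun p : ℝ × V3 × ℝ => p.2.2) := contDiff_snd.comp contDiff_snd
  have hx1 : ContDiff ℝ ∞ (fun p : ℝ × V3 × ℝ => p.2.1.1) := contDiff_fst.comp hx
  have hx2 : ContDiff ℝ ∞ (fun p : ℝ × V3 × ℝ => p.2.1.2.1) :=
    contDiff_fst.comp (contDiff_snd.comp hx)
  have hx3 : ContDiff ℝ ∞ (fun p : ℝ × V3 × ℝ => p.2.1.2.2) :=
    contDiff_snd.comp (contDiff_snd.comp hx)
  have hns : ContDiff ℝ ∞ (fun p : ℝ × V3 × ℝ => nsq3 p.2.1 + p.2.2) :=
    (((hx1.pow 2).add (hx2.pow 2)).add (hx3.pow 2)).add hR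
  have hc : ContDiff ℝ ∞ (fun p : ℝ × V3 × ℝ => P.hd.c p.2.1) := P.hd.c_smooth.comp hx
  have hpsi : ContDiff ℝ ∞ (fun p : ℝ × V3 × ℝ => P.psiR p.2.2) := (contDiff_psiR P).comp hR
  have hm : ContDiff ℝ ∞ (fun p : ℝ × V3 × ℝ => m (nsq3 p.2.1 + p.2.2)) := hp.m_smooth.comp hns
  have hn : ContDiff ℝ ∞ (fun p : ℝ × V3 × ℝ => n (nsq3 p.2.1 + p.2.2)) := hp.n_smooth.comp hns
  exact ((contDiff_const.sub hτ).mul (hx1.add (hpsi.mul (hc.sub hx1)))).add
    (hτ.mul ((hx1.mul hm).add (((contDiff_const.mul hn).mul hx2).mul hx3)))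

theorem contDiff_GG (P : Par) {m n : ℝ → ℝ} {s0 s1 : ℝ} (hp : Prof m n s0 s1) :
    ContDiff ℝ ∞ (fun p : ℝ × H7 => GG P m n p.1 p.2) := by
  have h1 : ContDiff ℝ ∞ (fun p : ℝ × H7 => p.2.1) := contDiff_fst.comp contDiff_snd
  have h2 : ContDiff ℝ ∞ (fun p : ℝ × H7 => p.2.2.1) :=
    contDiff_fst.comp (contDiff_snd.comp contDiff_snd)
  have h3 : ContDiff ℝ ∞ (fun p : ℝ × H7 => p.2.2.2.1) :=
    contDiff_fst.comp (contDiff_snd.comp (contDiff_snd.comp contDiff_snd))
  have h4 : ContDiff ℝ ∞ (fun p : ℝ × H7 => p.2.2.2.2) :=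
    contDiff_snd.comp (contDiff_snd.comp (contDiff_snd.comp contDiff_snd))
  have h2r : ContDiff ℝ ∞ (fun p : ℝ × H7 => (p.2.2.1).re) := Complex.reCLM.contDiff.comp h2
  have h2i : ContDiff ℝ ∞ (fun p : ℝ × H7 => (p.2.2.1).im) := Complex.imCLM.contDiff.comp h2
  have hx : ContDiff ℝ ∞ (fun p : ℝ × H7 => xpt p.2.1 p.2.2.1) := h1.prodMk (h2r.prodMk h2i)
  have hR : ContDiff ℝ ∞ (fun p : ℝ × H7 =>
      (Complex.normSq p.2.2.2.1 + Complex.normSq p.2.2.2.2) / 2) :=
    ((SYbA_normSq h3).add (SYbA_normSq h4)).div_const 2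
  have hq : ContDiff ℝ ∞ (fun p : ℝ × H7 =>
      ((p.1, xpt p.2.1 p.2.2.1, (Complex.normSq p.2.2.2.1 + Complex.normSq p.2.2.2.2) / 2) :
        ℝ × V3 × ℝ)) := contDiff_fst.prodMk (hx.prodMk hR)
  have hre : ContDiff ℝ ∞ (fun p : ℝ × H7 => (p.2.2.2.1 * p.2.2.2.2).re) :=
    Complex.reCLM.contDiff.comp (h3.mul h4)
  exact ((contDiff_CT P hp).comp hq).sub hre

end Pool.Agent.H8.SYb
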