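import Pool.Agent.H8.SYb.Defs
import Pool.Agent.H34.SY.WB

/-!
# Row SYb/B: the family (b) in the chart (b)

`z = psiN (cB La (-1) v)`: `-1 < eW1 z` (`eW1 (psiN p) = (1-|u|²)/(1+|u|²) > -1`), `rhoN z = cB La (-1) v` (`rhoN_psiN`), `fS < 0` because
`fS (cB La (-1) v) = - √(La² - |y|²(1+|b|²))` and the radicand is positive, `fH0 = (|b|²-1)/(|b|²+1) < 1`, so the first branches of
`Par.Fb`, `Par.FbN` apply; `(1 + h0)/(1 - h0) = |b|²`, so `Rr h0 y = (|b|² + |y|²)/2`; `fZe = b y`, `fZ = y`.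
-/

open Set Topology
open scoped ContDiff ComplexConjugate

namespace Pool.Agent.H8.SYb

open Pool.Agent.H34.SY

theorem Fb_chart (P : Par) (m n : ℝ → ℝ) (τ : ℝ) (v : H7)
    (hv : Complex.normSq v.2.2.2 * (1 + Complex.normSq v.2.2.1) < P.La ^ 2) :
    P.Fb m n τ (psiN (cB P.La (-1) v)) = GG P m n τ v := by
  have hw : -1 < eW1 (psiN (cB P.La (-1) v)) := by
    show -1 < (1 - Complex.normSq (fU (cB P.La (-1) v))) /
      (1 + Complex.normSq (fU (cB P.La (-1) v)))
    have h := Complex.normSq_nonneg (fU (cB P.La (-1) v))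
    rw [lt_div_iff₀ (by linarith)]
    linarith
  unfold Par.Fb
  rw [if_pos hw, rhoN_psiN]
  unfold Par.FbN
  have h1 : fS (cB P.La (-1) v) < 0 := by
    show (-1 : ℝ) * Real.sqrt (P.La ^ 2 -
      Complex.normSq v.2.2.2 * (1 + Complex.normSq v.2.2.1)) < 0
    have := Real.sqrt_pos.2 (sub_pos.2 hv)
    linarith
  have hb := Complex.normSq_nonneg v.2.2.1
  have h2 : fH0 (cB P.La (-1) v) < 1 := by
    show (Complex.normSq v.2.2.1 - 1) / (Complex.normSq v.2.2.1 + 1) < 1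
    rw [div_lt_one (by linarith)]
    linarith
  have h3 : Rr (fH0 (cB P.La (-1) v)) (fZ (cB P.La (-1) v)) =
      (Complex.normSq v.2.2.1 + Complex.normSq v.2.2.2) / 2 := by
    show ((1 + (Complex.normSq v.2.2.1 - 1) / (Complex.normSq v.2.2.1 + 1)) /
      (1 - (Complex.normSq v.2.2.1 - 1) / (Complex.normSq v.2.2.1 + 1)) +
        Complex.normSq v.2.2.2) / 2 = _
    have h4 : (1 + (Complex.normSq v.2.2.1 - 1) / (Complex.normSq v.2.2.1 + 1)) /
      (1 - (Complex.normSq v.2.2.1 - 1) / (Complex.normSq v.2.2.1 + 1)) =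
        Complex.normSq v.2.2.1 := by
      have h5 : Complex.normSq v.2.2.1 + 1 ≠ 0 := by linarith
      have h6 : 1 - (Complex.normSq v.2.2.1 - 1) / (Complex.normSq v.2.2.1 + 1) =
          2 / (Complex.normSq v.2.2.1 + 1) := by
        field_simp
        ring
      rw [h6]
      field_simp
      ring
    rw [h4]
  rw [if_pos ⟨h1, h2⟩, h3]
  rfl

end Pool.Agent.H8.SYb
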