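import Pool.Agent.H8.SYb.A

/-!
# Row SYb/D: directions in the variables `(b, y)` and the critical dichotomy

`A = ∂C_τ/∂R` (a real number).  Along `b + s β`, `y + s η`: `d/ds R = Re(conj b β + conj y η)`, `d/ds Re(b y) = Re(β y + b η)`, so
`d/ds GG = Re((A conj b - y) β + (A conj y - b) η)`; with `β = conj (A conj b - y)`, `η = conj (A conj y - b)` this is
`|A conj b - y|² + |A conj y - b|²`.  (Chain rule; `CT` is smooth (`contDiff_CT`), `r ↦ CT P m n τ x r` is differentiable.)
bydir: write `r s = (normSq (b + s β) + normSq (y + s η))/2`, polynomial in `s` with derivative `Re(conj b β + conj y η)` at `0`.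
dich: if both norms vanish: `y = A conj b`, `b = A conj y`, so `y = A² y`; either `y = 0`, then `b = 0`; or `A² = 1`, `A = ±1`.
In the second case `b ≠ 0` (as `y ≠ 0`).
-/

open Set Topology
open scoped ContDiff ComplexConjugate

namespace Pool.Agent.H8.SYb

open Pool.Agent.H34.SY

theorem bydir (P : Par) {m n : ℝ → ℝ} {s0 s1 : ℝ} (hp : Prof m n s0 s1) (τ : ℝ) (v : H7) (A : ℝ)
    (hA : A = deriv (fun r => CT P m n τ (xpt v.1 v.2.1) r)
      ((Complex.normSq v.2.2.1 + Complex.normSq v.2.2.2) / 2)) (β η : ℂ)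
    (hβ : β = conj ((A : ℂ) * conj v.2.2.1 - v.2.2.2))
    (hη : η = conj ((A : ℂ) * conj v.2.2.2 - v.2.2.1)) :
    HasDerivAt (fun s : ℝ => GG P m n τ (v.1, v.2.1, v.2.2.1 + (s : ℂ) * β, v.2.2.2 + (s : ℂ) * η))
      (Complex.normSq ((A : ℂ) * conj v.2.2.1 - v.2.2.2)
        + Complex.normSq ((A : ℂ) * conj v.2.2.2 - v.2.2.1)) 0 := by
  obtain ⟨t, u, b, y⟩ := v
  simp only at hA hβ hη ⊢
  have hF : HasDerivAt (fun r => CT P m n τ (xpt t u) r) A
      ((Complex.normSq b + Complex.normSq y) / 2) := by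
    rw [hA]
    have h1 : ContDiff ℝ ∞ (fun r : ℝ => CT P m n τ (xpt t u) r) :=
      (contDiff_CT P hp).comp (contDiff_const.prodMk (contDiff_const.prodMk contDiff_id))
    exact (h1.differentiable (by simp)).differentiableAt.hasDerivAt
  have hb1 : HasDerivAt (fun s : ℝ => b.re + s * β.re) β.re 0 := by
    simpa using ((hasDerivAt_id (0 : ℝ)).mul_const β.re).const_add b.re
  have hb2 : HasDerivAt (fun s : ℝ => b.im + s * β.im) β.im 0 := by
    simpa using ((hasDerivAt_id (0 : ℝ)).mul_const β.im).const_add b.im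
  have hy1 : HasDerivAt (fun s : ℝ => y.re + s * η.re) η.re 0 := by
    simpa using ((hasDerivAt_id (0 : ℝ)).mul_const η.re).const_add y.re
  have hy2 : HasDerivAt (fun s : ℝ => y.im + s * η.im) η.im 0 := by
    simpa using ((hasDerivAt_id (0 : ℝ)).mul_const η.im).const_add y.im
  have hR := ((((hb1.mul hb1).add (hb2.mul hb2)).add ((hy1.mul hy1).add (hy2.mul hy2))).div_const 2)
  have hR0 : HasDerivAt (fun s : ℝ => (Complex.normSq (b + (s : ℂ) * β)
      + Complex.normSq (y + (s : ℂ) * η)) / 2)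
      (b.re * β.re + b.im * β.im + y.re * η.re + y.im * η.im) 0 := by
    refine (hR.congr_deriv ?_).congr_of_eventuallyEq (Filter.Eventually.of_forall fun s => ?_)
    · simp only [zero_mul, add_zero]
      ring
    · simp [Complex.normSq_apply]
  have hM := (hb1.mul hy1).sub (hb2.mul hy2)
  have hM0 : HasDerivAt (fun s : ℝ => ((b + (s : ℂ) * β) * (y + (s : ℂ) * η)).re)
      (β.re * y.re + b.re * η.re - (β.im * y.im + b.im * η.im)) 0 := by
    refine (hM.congr_deriv ?_).congr_of_eventuallyEq (Filter.Eventually.of_forall fun s => ?_)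
    · simp only [zero_mul, add_zero]
    · simp [Complex.mul_re]
  have hF' : HasDerivAt (fun r => CT P m n τ (xpt t u) r) A
      ((Complex.normSq (b + ((0 : ℝ) : ℂ) * β) + Complex.normSq (y + ((0 : ℝ) : ℂ) * η)) / 2) := by
    simpa using hF
  have hC := (hF'.comp (0 : ℝ) hR0).sub hM0
  refine (hC.congr_deriv ?_).congr_of_eventuallyEq (Filter.Eventually.of_forall fun s => ?_)
  · rw [hβ, hη]
    simp [Complex.normSq_apply]
    ring
  · simp [GG, Function.comp_def]

theorem dich (A : ℝ) (b y : ℂ) (h : Complex.normSq ((A : ℂ) * conj b - y)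
    + Complex.normSq ((A : ℂ) * conj y - b) = 0) :
    (b = 0 ∧ y = 0) ∨ (A = 1 ∨ A = -1) := by
  have h1 := Complex.normSq_nonneg ((A : ℂ) * conj b - y)
  have h2 := Complex.normSq_nonneg ((A : ℂ) * conj y - b)
  have h3 : (A : ℂ) * conj b - y = 0 := Complex.normSq_eq_zero.1 (by linarith)
  have h4 : (A : ℂ) * conj y - b = 0 := Complex.normSq_eq_zero.1 (by linarith)
  have h5 : b = (A : ℂ) * conj y := by linear_combination -h4
  have h6 : ((A : ℂ) ^ 2 - 1) * y = 0 := by
    rw [h5, map_mul, Complex.conj_conj, Complex.conj_ofReal] at h3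
    linear_combination h3
  rcases mul_eq_zero.1 h6 with h7 | h7
  · right
    have h8 : A ^ 2 = 1 := by
      have : (A : ℂ) ^ 2 = 1 := by linear_combination h7
      exact_mod_cast this
    have h9 : (A - 1) * (A + 1) = 0 := by linear_combination h8
    rcases mul_eq_zero.1 h9 with h | h
    · left; linarith
    · right; linarith
  · left
    refine ⟨?_, h7⟩
    rw [h5, h7]
    simp

/-- A direction `e` in the variables `x`. -/
theorem xdir (P : Par) (m n : ℝ → ℝ) (τ : ℝ) (v : H7) (e : V3) (d : ℝ)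
    (h : HasDerivAt (fun s : ℝ => CT P m n τ (xpt v.1 v.2.1 + s • e)
      ((Complex.normSq v.2.2.1 + Complex.normSq v.2.2.2) / 2)) d 0) :
    HasDerivAt (fun s : ℝ => GG P m n τ
      (v.1 + s * e.1, v.2.1 + (s : ℂ) * (⟨e.2.1, e.2.2⟩ : ℂ), v.2.2)) d 0 := by
  have h1 := h.sub_const ((v.2.2.1 * v.2.2.2).re)
  refine h1.congr_of_eventuallyEq (Filter.Eventually.of_forall fun s => ?_)
  have hx : xpt (v.1 + s * e.1) (v.2.1 + (s : ℂ) * (⟨e.2.1, e.2.2⟩ : ℂ)) = xpt v.1 v.2.1 + s • e := by
    refine Prod.ext ?_ (Prod.ext ?_ ?_)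
    · simp [xpt]
    · simp [xpt]
    · simp [xpt]
  simp only [GG]
  rw [hx]

end Pool.Agent.H8.SYb
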