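import Pool.Agent.H34.SY.Geo

/-!
# Family (b) of block TOP, MP_46177c : definitions
-/

open Set Topology
open scoped ContDiff ComplexConjugate

namespace Pool.Agent.H8.SYb

open Pool.Agent.H34.SY

noncomputable section

/-- The family of functions `C_τ(x, R)`. -/
def CT (P : Par) (m n : ℝ → ℝ) (τ : ℝ) (x : V3) (R : ℝ) : ℝ :=
  (1 - τ) * (x.1 + P.psiR R * (P.hd.c x - x.1)) + τ * Cfin m n x R

/-- The family (b) in the chart (b). -/
def GG (P : Par) (m n : ℝ → ℝ) (τ : ℝ) (v : H7) : ℝ :=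
  CT P m n τ (xpt v.1 v.2.1) ((Complex.normSq v.2.2.1 + Complex.normSq v.2.2.2) / 2)
    - (v.2.2.1 * v.2.2.2).re

/-- The derivative of `c0` at `x` in the direction `e`. -/
def dc0 (x e : V3) : ℝ :=
  e.1 * (nsq3 x - 1 + 2 * x.1 ^ 2) + e.2.1 * (2 * x.1 * x.2.1 + 2 * x.2.2)
    + e.2.2 * (2 * x.1 * x.2.2 + 2 * x.2.1)

end

end Pool.Agent.H8.SYb
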