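import Pool.Agent.H8.SYb.A

/-!
# Row SYb/E: positivity of the `x₁`-derivative

`s = nsq3 x + R`.  `Cfin m n x R = x1 m(s) + 2 n(s) x2 x3`; its derivative in `x1` is `m(s) + 2 x1² m'(s) + 4 n'(s) x1 x2 x3`
(`nsq3` has `x1`-derivative `2 x1`).
* Cfin_pos: if `s0 ≤ s`: `Prof.mono` with `r = x1²` (`0 ≤ x1² ≤ s` as `R ≥ 0`) and `|x1 x2 x3| ≤ s √s` (`|xi| ≤ √s`) give `> 0`.
  If `s < s0`: near the point `m = (· - 1)`, `n = 1`, the derivative is `s - 1 + 2 x1²`, positive by hypothesis.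
* lin_pos: `x1 + psiR (c - x1)` has `x1`-derivative `(1 - psiR R) + psiR R ∂₁c(x)` with `∂₁c(x) = fderiv ℝ c x (1,0,0)`; `0 ≤ psiR ≤ 1`.
  If `psiR R = 0` it is `1`; otherwise `∂₁c(x) > 0` (`c_mono`) and it is positive.
* dCT_pos: `d = (1-τ) d1 + τ d2`, `d1, d2 > 0`, `0 ≤ τ ≤ 1`.
* core_R: `nsq3 x + R < s0`: `r ↦ Cfin m n x r` is `x1 (nsq3 x + r - 1) + 2 x2 x3` near `R`, derivative `x1`; so
  `deriv (CT ..) R = (1-τ) psiR'(R) (c x - x1) + τ x1`, and `|psiR'(R) (c x - x1)| ≤ (C/T) Sb ≤ 1/4` (`psiR_deriv`, `c_bound`).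
  If this is `±1` in absolute value then `τ |x1| ≥ 1 - (1-τ)/4 ≥ 3/4`, so `|x1| ≥ 3/4` (`τ ≤ 1`).
-/

open Set Topology
open scoped ContDiff ComplexConjugate

namespace Pool.Agent.H8.SYb

open Pool.Agent.H34.SY

theorem SYbE_1 (x : V3) (s : ℝ) : (x + s • ((1, 0, 0) : V3)).1 = x.1 + s := by simp

theorem SYbE_2 (x : V3) (s : ℝ) : (x + s • ((1, 0, 0) : V3)).2.1 = x.2.1 := by simp

theorem SYbE_3 (x : V3) (s : ℝ) : (x + s • ((1, 0, 0) : V3)).2.2 = x.2.2 := by simp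

theorem SYbE_n (x : V3) :
    HasDerivAt (fun s : ℝ => nsq3 (x + s • ((1, 0, 0) : V3))) (2 * x.1) 0 := by
  have h1 : HasDerivAt (fun s : ℝ => (x.1 + s) ^ 2 + x.2.1 ^ 2 + x.2.2 ^ 2) (2 * x.1) 0 := by
    have h2 : HasDerivAt (fun s : ℝ => x.1 + s) 1 0 := (hasDerivAt_id (0 : ℝ)).const_add x.1
    have h3 := ((h2.pow 2).add_const (x.2.1 ^ 2)).add_const (x.2.2 ^ 2)
    refine h3.congr_deriv ?_
    norm_num
  refine h1.congr_of_eventuallyEq (Filter.Eventually.of_forall ?_)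
  intro s
  simp only [nsq3, SYbE_1, SYbE_2, SYbE_3]

theorem SYbE_C {m n : ℝ → ℝ} {x : V3} {R dm dn : ℝ} (hm : HasDerivAt m dm (nsq3 x + R))
    (hn : HasDerivAt n dn (nsq3 x + R)) :
    HasDerivAt (fun s : ℝ => Cfin m n (x + s • ((1, 0, 0) : V3)) R)
      (m (nsq3 x + R) + 2 * x.1 ^ 2 * dm + 4 * dn * (x.1 * x.2.1 * x.2.2)) 0 := by
  have hN : HasDerivAt (fun s : ℝ => nsq3 (x + s • ((1, 0, 0) : V3)) + R) (2 * x.1) 0 :=
    (SYbE_n x).add_const R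
  have h0 : nsq3 (x + (0 : ℝ) • ((1, 0, 0) : V3)) + R = nsq3 x + R := by
    rw [zero_smul, add_zero]
  have hm' : HasDerivAt (fun s : ℝ => m (nsq3 (x + s • ((1, 0, 0) : V3)) + R)) (dm * (2 * x.1)) 0 :=
    HasDerivAt.comp (0 : ℝ) (h₂ := m) (by rw [h0]; exact hm) hN
  have hn' : HasDerivAt (fun s : ℝ => n (nsq3 (x + s • ((1, 0, 0) : V3)) + R)) (dn * (2 * x.1)) 0 :=
    HasDerivAt.comp (0 : ℝ) (h₂ := n) (by rw [h0]; exact hn) hN
  have h2 : HasDerivAt (fun s : ℝ => x.1 + s) 1 0 := (hasDerivAt_id (0 : ℝ)).const_add x.1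
  have h3 := (h2.mul hm').add (((hn'.const_mul 2).mul_const x.2.1).mul_const x.2.2)
  have h4 : HasDerivAt (fun s : ℝ => (x.1 + s) * m (nsq3 (x + s • ((1, 0, 0) : V3)) + R) +
      2 * n (nsq3 (x + s • ((1, 0, 0) : V3)) + R) * x.2.1 * x.2.2)
      (m (nsq3 x + R) + 2 * x.1 ^ 2 * dm + 4 * dn * (x.1 * x.2.1 * x.2.2)) 0 := by
    refine h3.congr_deriv ?_
    rw [h0]
    ring
  refine h4.congr_of_eventuallyEq (Filter.Eventually.of_forall ?_)
  intro s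
  simp only [Cfin, SYbE_1, SYbE_2, SYbE_3]

theorem Cfin_core {m n : ℝ → ℝ} {s0 s1 : ℝ} (hp : Prof m n s0 s1) {x : V3} {R : ℝ}
    (h : nsq3 x + R ≤ s0) : Cfin m n x R = x.1 * (nsq3 x + R - 1) + 2 * x.2.1 * x.2.2 := by
  have h0 := hp.s0_large
  have h1 : m (nsq3 x + R) = nsq3 x + R - 1 := hp.m_core _ (by linarith)
  have h2 : n (nsq3 x + R) = 1 := hp.n_core _ h
  unfold Cfin
  rw [h1, h2]
  ring

theorem Cfin_pos {m n : ℝ → ℝ} {s0 s1 : ℝ} (hp : Prof m n s0 s1) {x : V3} {R : ℝ} (hR : 0 ≤ R)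
    (h : s0 ≤ nsq3 x + R ∨ 0 < nsq3 x + R - 1 + 2 * x.1 ^ 2) :
    ∃ d, 0 < d ∧ HasDerivAt (fun s : ℝ => Cfin m n (x + s • ((1, 0, 0) : V3)) R) d 0 := by
  have h0 := hp.s0_large
  by_cases hs : s0 ≤ nsq3 x + R
  · have hm : HasDerivAt m (deriv m (nsq3 x + R)) (nsq3 x + R) :=
      ((hp.m_smooth.differentiable (by simp)) _).hasDerivAt
    have hn : HasDerivAt n (deriv n (nsq3 x + R)) (nsq3 x + R) :=
      ((hp.n_smooth.differentiable (by simp)) _).hasDerivAt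
    refine ⟨_, ?_, SYbE_C hm hn⟩
    set S := nsq3 x + R with hS
    have hS0 : 0 ≤ S := by linarith
    have hx1 : x.1 ^ 2 ≤ S := by
      rw [hS]; unfold nsq3
      nlinarith [sq_nonneg x.2.1, sq_nonneg x.2.2]
    have hx2 : x.2.1 ^ 2 ≤ S := by
      rw [hS]; unfold nsq3
      nlinarith [sq_nonneg x.1, sq_nonneg x.2.2]
    have hx3 : x.2.2 ^ 2 ≤ S := by
      rw [hS]; unfold nsq3
      nlinarith [sq_nonneg x.2.1, sq_nonneg x.1]
    have hmono := hp.mono S hs (x.1 ^ 2) (sq_nonneg _) hx1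
    have a1 : |x.1| ≤ Real.sqrt S := Real.abs_le_sqrt hx1
    have a2 : |x.2.1| ≤ Real.sqrt S := Real.abs_le_sqrt hx2
    have a3 : |x.2.2| ≤ Real.sqrt S := Real.abs_le_sqrt hx3
    have a4 : |x.1 * x.2.1 * x.2.2| ≤ S * Real.sqrt S := by
      rw [abs_mul, abs_mul]
      calc |x.1| * |x.2.1| * |x.2.2| ≤ (Real.sqrt S * Real.sqrt S) * Real.sqrt S := by
            gcongr
        _ = S * Real.sqrt S := by rw [Real.mul_self_sqrt hS0]
    have a5 : |deriv n S * (x.1 * x.2.1 * x.2.2)| ≤ |deriv n S| * (S * Real.sqrt S) := by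
      rw [abs_mul]
      exact mul_le_mul_of_nonneg_left a4 (abs_nonneg _)
    have a6 := (abs_le.1 a5).1
    nlinarith
  · push Not at hs
    have h2 : 0 < nsq3 x + R - 1 + 2 * x.1 ^ 2 := by
      rcases h with h | h
      · exact absurd h (not_le.2 hs)
      · exact h
    have hm : HasDerivAt m 1 (nsq3 x + R) := by
      have h3 : HasDerivAt (fun s : ℝ => s - 1) 1 (nsq3 x + R) := (hasDerivAt_id _).sub_const 1
      refine h3.congr_of_eventuallyEq ?_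
      filter_upwards [eventually_lt_nhds hs] with s hs'
      exact hp.m_core s (by linarith)
    have hn : HasDerivAt n 0 (nsq3 x + R) := by
      have h3 : HasDerivAt (fun _ : ℝ => (1 : ℝ)) 0 (nsq3 x + R) := hasDerivAt_const _ _
      refine h3.congr_of_eventuallyEq ?_
      filter_upwards [eventually_lt_nhds hs] with s hs'
      exact hp.n_core s hs'.le
    refine ⟨_, ?_, SYbE_C hm hn⟩
    rw [hp.m_core _ (by linarith)]
    linarith

theorem lin_pos (P : Par) {x : V3} {R : ℝ}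
    (h : P.hd.L ^ 2 ≤ nsq3 x ∨ 3 / 4 ≤ |x.1| ∨ P.psiR R = 0) :
    ∃ d, 0 < d ∧ HasDerivAt (fun s : ℝ => (x + s • ((1, 0, 0) : V3)).1 +
      P.psiR R * (P.hd.c (x + s • ((1, 0, 0) : V3)) - (x + s • ((1, 0, 0) : V3)).1)) d 0 := by
  have hc : HasFDerivAt P.hd.c (fderiv ℝ P.hd.c x) x :=
    ((P.hd.c_smooth.differentiable (by simp)) x).hasFDerivAt
  have hl : HasDerivAt (fun s : ℝ => x + s • ((1, 0, 0) : V3)) ((1, 0, 0) : V3) 0 := by
    have h1 := ((hasDerivAt_id (0 : ℝ)).smul_const ((1, 0, 0) : V3)).const_add x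
    rw [one_smul] at h1
    exact h1
  have h0 : x + (0 : ℝ) • ((1, 0, 0) : V3) = x := by rw [zero_smul, add_zero]
  have hc' : HasDerivAt (fun s : ℝ => P.hd.c (x + s • ((1, 0, 0) : V3)))
      (fderiv ℝ P.hd.c x (1, 0, 0)) 0 :=
    HasFDerivAt.comp_hasDerivAt (0 : ℝ) (l := P.hd.c) (by rw [h0]; exact hc) hl
  have h2 : HasDerivAt (fun s : ℝ => (x + s • ((1, 0, 0) : V3)).1) 1 0 := by
    have h3 : HasDerivAt (fun s : ℝ => x.1 + s) 1 0 := (hasDerivAt_id (0 : ℝ)).const_add x.1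
    refine h3.congr_of_eventuallyEq (Filter.Eventually.of_forall ?_)
    intro s
    exact SYbE_1 x s
  refine ⟨_, ?_, h2.add ((hc'.sub h2).const_mul (P.psiR R))⟩
  obtain ⟨p0, p1⟩ := psiR_mem P R
  by_cases hz : P.psiR R = 0
  · rw [hz]; norm_num
  · have hpos : 0 < P.psiR R := lt_of_le_of_ne p0 (Ne.symm hz)
    have hcp : 0 < fderiv ℝ P.hd.c x (1, 0, 0) := by
      refine P.hd.c_mono x ?_
      rcases h with h | h | h
      · exact Or.inl h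
      · exact Or.inr h
      · exact absurd h hz
    nlinarith [mul_pos hpos hcp]

theorem dCT_pos (P : Par) {m n : ℝ → ℝ} {s0 s1 : ℝ} (hp : Prof m n s0 s1) {τ : ℝ} (h0 : 0 ≤ τ)
    (h1 : τ ≤ 1) {x : V3} {R : ℝ} (hR : 0 ≤ R)
    (hc : P.hd.L ^ 2 ≤ nsq3 x ∨ 3 / 4 ≤ |x.1| ∨ P.psiR R = 0)
    (hf : s0 ≤ nsq3 x + R ∨ 0 < nsq3 x + R - 1 + 2 * x.1 ^ 2) :
    ∃ d, 0 < d ∧ HasDerivAt (fun s : ℝ => CT P m n τ (x + s • ((1, 0, 0) : V3)) R) d 0 := by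
  obtain ⟨d1, hd1, hD1⟩ := lin_pos P hc
  obtain ⟨d2, hd2, hD2⟩ := Cfin_pos hp hR hf
  refine ⟨(1 - τ) * d1 + τ * d2, ?_, (hD1.const_mul (1 - τ)).add (hD2.const_mul τ)⟩
  rcases eq_or_lt_of_le h0 with h | h
  · rw [← h]; linarith
  · have := mul_pos h hd2
    have := mul_nonneg (sub_nonneg.2 h1) hd1.le
    linarith

theorem core_R (P : Par) {m n : ℝ → ℝ} {s0 s1 : ℝ} (hp : Prof m n s0 s1) (hT : 0 < P.T) {C : ℝ}
    (hC : ∀ x, |deriv Real.smoothTransition x| ≤ C) (hCT : 4 * (C * P.hd.Sb) ≤ P.T) {τ : ℝ}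
    (h0 : 0 ≤ τ) (h1 : τ ≤ 1) {x : V3} {R : ℝ} (hs : nsq3 x + R < s0)
    (hA : deriv (fun r => CT P m n τ x r) R = 1 ∨ deriv (fun r => CT P m n τ x r) R = -1) :
    3 / 4 ≤ |x.1| := by
  have hfin : HasDerivAt (fun r => Cfin m n x r) x.1 R := by
    have h3 : HasDerivAt (fun r : ℝ => x.1 * (nsq3 x + r - 1) + 2 * x.2.1 * x.2.2) x.1 R := by
      have h4 := ((((hasDerivAt_id R).const_add (nsq3 x)).sub_const 1).const_mul x.1).add_const
        (2 * x.2.1 * x.2.2)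
      rw [mul_one] at h4
      exact h4
    refine h3.congr_of_eventuallyEq ?_
    have h5 : ∀ᶠ r in 𝓝 R, nsq3 x + r < s0 := by
      have hcont : ContinuousAt (fun r : ℝ => nsq3 x + r) R := by fun_prop
      exact hcont.eventually_lt_const hs
    filter_upwards [h5] with r hr
    exact Cfin_core hp hr.le
  have hpsi : HasDerivAt P.psiR (deriv P.psiR R) R :=
    (((contDiff_psiR P).differentiable (by simp)) R).hasDerivAt
  have hD : HasDerivAt (fun r => CT P m n τ x r)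
      ((1 - τ) * (deriv P.psiR R * (P.hd.c x - x.1)) + τ * x.1) R :=
    ((((hpsi.mul_const (P.hd.c x - x.1)).const_add x.1).const_mul (1 - τ)).add
      (hfin.const_mul τ))
  rw [hD.deriv] at hA
  have hb1 := psiR_deriv P hT hC R
  have hb2 := P.hd.c_bound x
  have hC0 : 0 ≤ C := (abs_nonneg _).trans (hC 0)
  set ρ := deriv P.psiR R * (P.hd.c x - x.1) with hρ
  have hb3 : |ρ| ≤ 1 / 4 := by
    rw [hρ, abs_mul]
    calc |deriv P.psiR R| * |P.hd.c x - x.1| ≤ (C / P.T) * P.hd.Sb :=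
          mul_le_mul hb1 hb2 (abs_nonneg _) (div_nonneg hC0 hT.le)
      _ = (C * P.hd.Sb) / P.T := by ring
      _ ≤ 1 / 4 := by
          rw [div_le_iff₀ hT]
          linarith
  obtain ⟨hb4, hb5⟩ := abs_le.1 hb3
  have hτ : 0 ≤ 1 - τ := by linarith
  have k1 : (1 - τ) * ρ ≤ (1 - τ) * (1 / 4) := mul_le_mul_of_nonneg_left hb5 hτ
  have k2 : (1 - τ) * (-(1 / 4)) ≤ (1 - τ) * ρ := mul_le_mul_of_nonneg_left hb4 hτ
  have k3 : τ * x.1 ≤ τ * |x.1| := mul_le_mul_of_nonneg_left (le_abs_self _) h0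
  have k4 : τ * (-|x.1|) ≤ τ * x.1 := mul_le_mul_of_nonneg_left (neg_abs_le _) h0
  have k5 : τ * |x.1| ≤ 1 * |x.1| := mul_le_mul_of_nonneg_right h1 (abs_nonneg _)
  rcases hA with hA | hA
  · nlinarith
  · nlinarith

end Pool.Agent.H8.SYb
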